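import Mathlib
import Pool.Agent.V8H67.Sol.Hyp

/-!
# MP_19bed6_al, Q1: no quasi-isometric embedding of the hyperbolic plane into the upper half of Sol

`Sol` is `ℝ³` with coordinates `(x, y, t)` and the metric `e^{2t} dx² + e^{-2t} dy² + dt²`; its
distance `dSol p q` is the infimum of the lengths of the piecewise `C¹` paths from `p` to `q`
(`Pool/Agent/V8H67/Sol/SolDist.lean`). The hyperbolic plane is Mathlib's `UpperHalfPlane` with its
distance (constant curvature `-1`).
-/

set_option autoImplicit false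

namespace Pool.Agent.Results.MP_19bed6_al.NoQIEmbedding

open Pool.Agent.V8H67.Sol

/-- `f` is a `(K, C)`-quasi-isometric embedding of the hyperbolic plane into `Sol`. -/
def IsQIEmbedding (K C : ℝ) (f : UpperHalfPlane → ℝ × ℝ × ℝ) : Prop :=
  ∀ p q : UpperHalfPlane,
    dist p q / K - C ≤ dSol (f p) (f q) ∧ dSol (f p) (f q) ≤ K * dist p q + C

/-- No quasi-isometric embedding of the hyperbolic plane into `Sol`, with any constants, has its
image in the half `{t ≥ 0}`. -/
theorem result : ¬ ∃ (K C : ℝ) (f : UpperHalfPlane → ℝ × ℝ × ℝ),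
    1 ≤ K ∧ 0 ≤ C ∧ IsQIEmbedding K C f ∧ ∀ p : UpperHalfPlane, 0 ≤ (f p).2.2 := by
  rintro ⟨K, C, f, hK, hC, hf, hpos⟩
  exact no_qi f K C hK hC (fun p q => (hf p q).1) (fun p q => (hf p q).2) hpos

end Pool.Agent.Results.MP_19bed6_al.NoQIEmbedding
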